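import Pool.Agent.H80.G2.Targets

/-!
# Row PIS of the board gmm (helper80, MP_323167_an)

Partial isometries `y b` with `b` in a von Neumann algebra containing `star y * y`.
-/

set_option autoImplicit false

open Pool.Agent.H80.G2

namespace Pool.Agent.H13.G2

theorem pf_PIS (hCFC : T_CFC) (hRNG : T_RNG) : T_PIS := by
  intro H _ _ _ P y hy0 hyP
  set h : H →L[ℂ] H := star y * y with hh
  have hsa : IsSelfAdjoint h := IsSelfAdjoint.star_mul_self y
  have hnn : 0 ≤ h := star_mul_self_nonneg y
  have hne : h ≠ 0 := by
    intro h0
    apply hy0
    have := CStarRing.norm_star_mul_self (x := y)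
    rw [← hh, h0, norm_zero] at this
    have : ‖y‖ = 0 := by nlinarith [norm_nonneg y]
    exact norm_eq_zero.mp this
  have hpos : 0 < ‖h‖ := norm_pos_iff.mpr hne
  have : Nontrivial (H →L[ℂ] H) := ⟨⟨h, 0, hne⟩⟩
  set δ : ℝ := ‖h‖ / 2 with hδ
  have hδ0 : 0 < δ := by positivity
  set f : ℝ → ℝ := fun t => max (t - δ) 0 with hf
  set k : ℝ → ℝ := fun t => 1 / Real.sqrt (max t δ) with hk
  have hfc : Continuous f := by fun_prop
  have hmax : ∀ t : ℝ, 0 < max t δ := fun t => lt_max_of_lt_right hδ0
  have hkc : Continuous k := by
    apply Continuous.div continuous_const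
    · fun_prop
    · intro t
      exact (Real.sqrt_pos.mpr (hmax t)).ne'
  set g : H →L[ℂ] H := cfc f h with hg
  set c : H →L[ℂ] H := cfc k h with hc
  have hgsa : star g = g := by
    have := cfc_predicate (p := IsSelfAdjoint) f h
    exact this
  have hcsa : star c = c := by
    have := cfc_predicate (p := IsSelfAdjoint) k h
    exact this
  have hgP : g ∈ P := hCFC H P h hyP hsa f
  have hcP : c ∈ P := hCFC H P h hyP hsa k
  obtain ⟨e, heP, heg, hek, -⟩ := hRNG H P g hgP hgsa
  have hgne : g ≠ 0 := by
    intro g0
    have h1 : cfc f h = cfc (fun _ : ℝ => (0 : ℝ)) h := by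
      rw [← hg, g0]
      exact (cfc_zero ℝ h).symm
    rw [cfc_eq_cfc_iff_eqOn (ha := hsa) (hf := hfc.continuousOn) (hg := continuousOn_const)] at h1
    have h2 := h1 (CStarAlgebra.norm_mem_spectrum_of_nonneg hnn)
    simp only [hf] at h2
    have h3 : ‖h‖ - δ ≤ 0 := by
      calc ‖h‖ - δ ≤ max (‖h‖ - δ) 0 := le_max_left _ _
        _ = 0 := h2
    linarith
  -- the key identity
  have hkey : (c * h * c - 1) * g = 0 := by
    have e1 : c * h * c * g = g := by
      have e2 : c * h = cfc (fun t => k t * t) h := by
        have h5 := cfc_mul k (fun t : ℝ => t) h hkc.continuousOn continuousOn_id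
        rw [cfc_id' ℝ h hsa] at h5
        exact h5.symm
      have hkt : Continuous (fun t => k t * t) := hkc.mul continuous_id
      have e3 : c * h * c = cfc (fun t => k t * t * k t) h := by
        rw [e2, hc]
        exact (cfc_mul (fun t => k t * t) k h hkt.continuousOn hkc.continuousOn).symm
      have hktt : Continuous (fun t => k t * t * k t) := hkt.mul hkc
      rw [e3, hg, ← cfc_mul (fun t => k t * t * k t) f h hktt.continuousOn hfc.continuousOn]
      apply cfc_congr
      intro t _
      simp only [hf, hk]
      rcases le_or_gt t δ with ht | ht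
      · rw [max_eq_right (by linarith : t - δ ≤ 0)]
        simp
      · rw [max_eq_left ht.le]
        have ht0 : 0 < t := hδ0.trans ht
        have hs : Real.sqrt t ≠ 0 := (Real.sqrt_pos.mpr ht0).ne'
        have hss : Real.sqrt t * Real.sqrt t = t := Real.mul_self_sqrt ht0.le
        have : 1 / Real.sqrt t * t * (1 / Real.sqrt t) = 1 := by
          field_simp
          nlinarith
        rw [this, one_mul]
    rw [sub_mul, e1, one_mul, sub_self]
  have hke : c * h * c * e = e := by
    have := hek _ hkey
    rw [sub_mul, one_mul, sub_eq_zero] at this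
    exact this
  have hyb : star (y * (c * e)) * (y * (c * e)) = e := by
    rw [star_mul, star_mul, heP.2.1, hcsa]
    calc e * c * star y * (y * (c * e)) = e * (c * (star y * y) * c * e) := by
          simp only [mul_assoc]
      _ = e * e := by rw [← hh, hke]
      _ = e := heP.2.2
  refine ⟨c * e, mul_mem hcP heP.1, ?_, ?_, ?_⟩
  · intro h0
    rw [h0, mul_zero] at hyb
    rw [← hyb, zero_mul] at heg
    exact hgne heg.symm
  · rw [hyb]
    exact heP
  · intro z hz
    have hhz : h * z = 0 := by
      rw [hh, mul_assoc, hz, mul_zero]
    have hgz : g * z = 0 := by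
      -- g = c' * h with c' a function of h
      have : g = cfc (fun t => f t / max t δ) h * h := by
        have hq : Continuous (fun t => f t / max t δ) := by
          apply Continuous.div hfc
          · fun_prop
          · intro t
            exact (hmax t).ne'
        have e5 : cfc (fun t => f t / max t δ) h * h
            = cfc (fun t => f t / max t δ * t) h := by
          have h5 := cfc_mul (fun t => f t / max t δ) (fun t : ℝ => t) h hq.continuousOn
            continuousOn_id
          rw [cfc_id' ℝ h hsa] at h5
          exact h5.symm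
        rw [e5, hg]
        apply cfc_congr
        intro t _
        simp only [hf]
        rcases le_or_gt t δ with ht | ht
        · rw [max_eq_right (by linarith : t - δ ≤ 0)]
          simp
        · rw [max_eq_left (by linarith : 0 ≤ t - δ), max_eq_left ht.le]
          have ht0 : t ≠ 0 := (hδ0.trans ht).ne'
          field_simp
      rw [this, mul_assoc, hhz, mul_zero]
    have hzg : star z * g = 0 := by
      have := congrArg star hgz
      rwa [star_mul, hgsa, star_zero] at this
    have hze : star z * e = 0 := hek _ hzg
    have hez : e * z = 0 := by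
      have := congrArg star hze
      rwa [star_mul, star_star, heP.2.1, star_zero] at this
    rw [mul_assoc, mul_assoc, hez, mul_zero, mul_zero]

end Pool.Agent.H13.G2
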